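import Pool.Agent.Y424.FC.Poly

/-!
# The graph form of the log-rank conjecture for graphs with few codegrees

The codegree of two vertices is the number of their common neighbours. Let `G` be a twin-free graph
of rank `r`.

* If every vertex has at most `s` different codegrees with the vertices whose degree is not larger,
  then `G` has at most `C(r + s, s)` vertices, in particular `log χ(G) ≤ s log (r + 1)`.
* It suffices that the vertices can be covered by `t` sets with this property, where in each set only
  codegrees of two vertices of the set are counted; then `G` has at most `t C(r + s, s)` vertices and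
  `log χ(G) ≤ log t + s log (r + 1)`. So the conjecture holds whenever `log t` and `s` are at most
  polylogarithmic in the rank.
* The codegrees are the entries of `A * A`. More generally `B * A` may be used with any real matrix
  `B` (for example a polynomial in `A`: numbers of walks) and any order of the vertices: in the row
  of `v`, the entries which belong to the vertices of the same set which do not come later than `v`
  have at most `s` values, and the entry on the diagonal is not one of them.

Proof (polynomial method in the row space). The row `h` of `v` in `B * A` lies in the row space of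
`A`, which has dimension `r`. The product of the functions `h - c` over the values `c` is a
polynomial of degree at most `s` in a basis of the row space; it does not vanish at `v` and vanishes
at the vertices which do not come later. So these polynomials are linearly independent. For codegrees
and the order by degrees the entry on the diagonal is different from the others: if the codegree of
`u` and `v` is `deg v` and `deg u ≤ deg v` then `u` and `v` have the same neighbours.
-/

set_option autoImplicit false

namespace Pool.Agent.Results.MP_3bd889_lc.FewCodegrees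

open Finset

/-- the number of common neighbours -/
def codeg {n : ℕ} (G : SimpleGraph (Fin n)) [DecidableRel G.Adj] (u v : Fin n) : ℕ :=
  (G.neighborFinset u ∩ G.neighborFinset v).card

theorem choose_le_pow (r s : ℕ) : (r + s).choose s ≤ (r + 1) ^ s := by
  induction s with
  | zero => simp
  | succ s ih =>
    have h1 := Nat.add_one_mul_choose_eq (r + s) s
    have h2 : (r + s + 1).choose (s + 1) * (s + 1) ≤ (r + 1) ^ (s + 1) * (s + 1) := by
      rw [← h1]
      calc (r + s + 1) * (r + s).choose s ≤ ((r + 1) * (s + 1)) * (r + 1) ^ s :=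
            Nat.mul_le_mul (by nlinarith) ih
        _ = (r + 1) ^ (s + 1) * (s + 1) := by ring
    exact Nat.le_of_mul_le_mul_right h2 (Nat.succ_pos s)

theorem log_bound {n : ℕ} (G : SimpleGraph (Fin n)) (t r s : ℕ)
    (h : n ≤ t * (r + s).choose s) :
    Real.log (G.chromaticNumber.toNat : ℝ) ≤ Real.log (t : ℝ) + s * Real.log ((r : ℝ) + 1) := by
  have h1 : G.chromaticNumber ≤ (n : ℕ∞) := by
    have : G.Colorable n := by
      have := G.colorable_of_fintype
      rwa [Fintype.card_fin] at this
    exact this.chromaticNumber_le
  have h2 : G.chromaticNumber.toNat ≤ n := by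
    have := ENat.toNat_le_toNat h1 (ENat.natCast_ne_top n)
    simpa using this
  have hR : 0 ≤ Real.log (t : ℝ) + s * Real.log ((r : ℝ) + 1) := by
    have h3 : 0 ≤ Real.log (t : ℝ) := Real.log_natCast_nonneg t
    have h4 : 0 ≤ Real.log ((r : ℝ) + 1) := Real.log_nonneg (by linarith [Nat.cast_nonneg (α := ℝ) r])
    have h5 : (0 : ℝ) ≤ s := Nat.cast_nonneg s
    have := mul_nonneg h5 h4
    linarith
  by_cases h0 : G.chromaticNumber.toNat = 0
  · rw [h0]
    simpa using hR
  · have h3 : (G.chromaticNumber.toNat : ℝ) ≤ (t : ℝ) * ((r : ℝ) + 1) ^ s := by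
      have h4 : G.chromaticNumber.toNat ≤ t * (r + 1) ^ s :=
        h2.trans (h.trans (Nat.mul_le_mul_left _ (choose_le_pow r s)))
      exact_mod_cast h4
    have h4 : (0 : ℝ) < (G.chromaticNumber.toNat : ℝ) := by
      exact_mod_cast Nat.pos_of_ne_zero h0
    have ht : (t : ℝ) ≠ 0 := by
      intro h5
      rw [h5, zero_mul] at h3
      linarith
    have hr1 : (r : ℝ) + 1 ≠ 0 := by positivity
    calc Real.log (G.chromaticNumber.toNat : ℝ) ≤ Real.log ((t : ℝ) * ((r : ℝ) + 1) ^ s) :=
          Real.log_le_log h4 h3
      _ = Real.log (t : ℝ) + s * Real.log ((r : ℝ) + 1) := by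
          rw [Real.log_mul ht (pow_ne_zero _ hr1), Real.log_pow]

theorem general (n : ℕ) (G : SimpleGraph (Fin n)) [DecidableRel G.Adj]
    (B : Matrix (Fin n) (Fin n) ℝ) (d : Fin n → ℕ) (s t : ℕ) (P : Fin t → Finset (Fin n))
    (hP : ∀ v, ∃ i, v ∈ P i)
    (hs : ∀ i, ∀ v ∈ P i, (((P i).filter (fun u => u ≠ v ∧ d u ≤ d v)).image
      (fun u => (B * G.adjMatrix ℝ) v u)).card ≤ s)
    (hd : ∀ i, ∀ v ∈ P i, ∀ u ∈ P i, u ≠ v → d u ≤ d v →
      (B * G.adjMatrix ℝ) v u ≠ (B * G.adjMatrix ℝ) v v) :
    n ≤ t * ((G.adjMatrix ℝ).rank + s).choose s := by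
  classical
  let R : Submodule ℝ (Fin n → ℝ) := Submodule.span ℝ (Set.range (G.adjMatrix ℝ).row)
  have hR : Module.finrank ℝ R ≤ (G.adjMatrix ℝ).rank := by
    rw [Matrix.rank_eq_finrank_span_row]
  have hrow : ∀ v : Fin n, (fun u => (B * G.adjMatrix ℝ) v u) ∈ R := by
    intro v
    have : (fun u => (B * G.adjMatrix ℝ) v u) = ∑ w, B v w • (G.adjMatrix ℝ).row w := by
      funext u
      rw [Matrix.mul_apply, Finset.sum_apply]
      rfl
    rw [this]
    exact Submodule.sum_mem _ (fun w _ => Submodule.smul_mem _ _ (Submodule.subset_span ⟨w, rfl⟩))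
  have hcard : ∀ i, (P i).card ≤ ((G.adjMatrix ℝ).rank + s).choose s := by
    intro i
    refine Pool.Agent.Y424.FC.card_le R hR (P i) d (fun v u => (B * G.adjMatrix ℝ) v u)
      (fun v _ => hrow v)
      (fun v => ((P i).filter (fun u => u ≠ v ∧ d u ≤ d v)).image
        (fun u => (B * G.adjMatrix ℝ) v u)) (fun v hv => hs i v hv) ?_ ?_
    · intro v hv hmem
      obtain ⟨u, hu, hu2⟩ := mem_image.1 hmem
      obtain ⟨hu3, hu4, hu5⟩ := mem_filter.1 hu
      exact hd i v hv u hu3 hu4 hu5 hu2
    · intro v _ u hu huv hdu
      exact mem_image.2 ⟨u, mem_filter.2 ⟨hu, huv, hdu⟩, rfl⟩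
  have h1 : (univ : Finset (Fin n)) ⊆ (univ : Finset (Fin t)).biUnion P := by
    intro v _
    obtain ⟨i, hi⟩ := hP v
    exact mem_biUnion.2 ⟨i, mem_univ _, hi⟩
  calc n = (univ : Finset (Fin n)).card := by simp
    _ ≤ ((univ : Finset (Fin t)).biUnion P).card := card_le_card h1
    _ ≤ (univ : Finset (Fin t)).card * ((G.adjMatrix ℝ).rank + s).choose s :=
        card_biUnion_le_card_mul _ _ _ (fun i _ => hcard i)
    _ = t * ((G.adjMatrix ℝ).rank + s).choose s := by simp

theorem sq_apply {n : ℕ} (G : SimpleGraph (Fin n)) [DecidableRel G.Adj] (v u : Fin n) :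
    (G.adjMatrix ℝ * G.adjMatrix ℝ) v u = (codeg G v u : ℝ) := by
  classical
  rw [Matrix.mul_apply]
  unfold codeg
  have h : ∀ w, G.adjMatrix ℝ v w * G.adjMatrix ℝ w u =
      if w ∈ G.neighborFinset v ∩ G.neighborFinset u then 1 else 0 := by
    intro w
    simp only [SimpleGraph.adjMatrix_apply, mem_inter, SimpleGraph.mem_neighborFinset]
    by_cases h1 : G.Adj v w <;> by_cases h2 : G.Adj u w
    · simp [h1, h2, G.adj_comm w u]
    · simp [h1, h2, G.adj_comm w u]
    · simp [h1, h2]
    · simp [h1, h2]
  rw [Finset.sum_congr rfl (fun w _ => h w), Finset.sum_ite_mem, univ_inter, sum_const,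
    nsmul_eq_mul, mul_one]

/-- **The graph form of the log-rank conjecture for graphs with few codegrees.** Let `G` be a graph
of rank `r` whose vertices are covered by `t` sets.
1. If `G` is twin-free and every vertex `v` of each of the sets has at most `s` different codegrees
   with the other vertices `u` of the set with `deg u ≤ deg v`, then `G` has at most
   `t * C(r + s, s)` vertices and `log χ(G) ≤ log t + s log (r + 1)`.
2. The same holds if there are a real matrix `B` and an order of the vertices (given by `d`) such
   that for every vertex `v` of each of the sets the entries `(B A) v u`, for the other vertices `u`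
   of the set with `d u ≤ d v`, have at most `s` values and are different from `(B A) v v`. -/
theorem result :
    (∀ (n : ℕ) (G : SimpleGraph (Fin n)) [DecidableRel G.Adj] (s t : ℕ)
      (P : Fin t → Finset (Fin n)),
      (∀ u v : Fin n, u ≠ v → ¬ G.Adj u v → G.neighborSet u ≠ G.neighborSet v) →
      (∀ v, ∃ i, v ∈ P i) →
      (∀ i, ∀ v ∈ P i, (((P i).filter (fun u => u ≠ v ∧ G.degree u ≤ G.degree v)).image
        (fun u => codeg G v u)).card ≤ s) →
      n ≤ t * ((G.adjMatrix ℝ).rank + s).choose s ∧
      Real.log (G.chromaticNumber.toNat : ℝ) ≤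
        Real.log (t : ℝ) + s * Real.log (((G.adjMatrix ℝ).rank : ℝ) + 1)) ∧
    (∀ (n : ℕ) (G : SimpleGraph (Fin n)) [DecidableRel G.Adj]
      (B : Matrix (Fin n) (Fin n) ℝ) (d : Fin n → ℕ) (s t : ℕ) (P : Fin t → Finset (Fin n)),
      (∀ v, ∃ i, v ∈ P i) →
      (∀ i, ∀ v ∈ P i, (((P i).filter (fun u => u ≠ v ∧ d u ≤ d v)).image
        (fun u => (B * G.adjMatrix ℝ) v u)).card ≤ s) →
      (∀ i, ∀ v ∈ P i, ∀ u ∈ P i, u ≠ v → d u ≤ d v →
        (B * G.adjMatrix ℝ) v u ≠ (B * G.adjMatrix ℝ) v v) →
      n ≤ t * ((G.adjMatrix ℝ).rank + s).choose s ∧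
      Real.log (G.chromaticNumber.toNat : ℝ) ≤
        Real.log (t : ℝ) + s * Real.log (((G.adjMatrix ℝ).rank : ℝ) + 1)) := by
  classical
  refine ⟨?_, ?_⟩
  · intro n G _ s t P htw hP hs
    have hmain : n ≤ t * ((G.adjMatrix ℝ).rank + s).choose s := by
      refine general n G (G.adjMatrix ℝ) (fun v => G.degree v) s t P hP ?_ ?_
      · intro i v hv
        refine le_trans ?_ (hs i v hv)
        have h1 : (((P i).filter (fun u => u ≠ v ∧ G.degree u ≤ G.degree v)).image
            (fun u => (G.adjMatrix ℝ * G.adjMatrix ℝ) v u)) =
            ((((P i).filter (fun u => u ≠ v ∧ G.degree u ≤ G.degree v)).image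
            (fun u => codeg G v u)).image (fun m : ℕ => (m : ℝ))) := by
          rw [image_image]
          refine image_congr (fun u _ => ?_)
          exact sq_apply G v u
        rw [h1]
        exact card_image_le
      · intro i v _ u _ huv hdeg heq
        rw [sq_apply, sq_apply] at heq
        have h1 : codeg G v u = codeg G v v := by exact_mod_cast heq
        unfold codeg at h1
        rw [inter_self, G.card_neighborFinset_eq_degree] at h1
        have h2 : G.neighborFinset v ∩ G.neighborFinset u = G.neighborFinset v := by
          apply eq_of_subset_of_card_le inter_subset_left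
          rw [h1, G.card_neighborFinset_eq_degree]
        have h3 : G.neighborFinset v ⊆ G.neighborFinset u := inter_eq_left.1 h2
        have h4 : G.neighborFinset v = G.neighborFinset u := by
          apply eq_of_subset_of_card_le h3
          rw [G.card_neighborFinset_eq_degree, G.card_neighborFinset_eq_degree]
          exact hdeg
        have hnadj : ¬ G.Adj u v := by
          intro hadj
          have h5 : u ∈ G.neighborFinset v := (G.mem_neighborFinset v u).2 hadj.symm
          rw [h4, G.mem_neighborFinset] at h5
          exact G.loopless.irrefl u h5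
        apply htw u v huv hnadj
        ext w
        rw [SimpleGraph.mem_neighborSet, SimpleGraph.mem_neighborSet,
          ← G.mem_neighborFinset u w, ← G.mem_neighborFinset v w, h4]
    exact ⟨hmain, log_bound G t _ s hmain⟩
  · intro n G _ B d s t P hP hs hd
    have hmain := general n G B d s t P hP hs hd
    exact ⟨hmain, log_bound G t _ s hmain⟩

end Pool.Agent.Results.MP_3bd889_lc.FewCodegrees
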