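import Pool.Agent.Y405.PM.Fin

/-!
# Chromatic number and rank for graphs given by polynomials of constant degree

Let the vertex set of the graph `G` be covered by the images `V_i` of `t` maps `φ_i : A_i → V`, where
the `A_i` are arbitrary finite abelian groups (of any number of generators and any orders), and let
`m_i ≥ 2`. Suppose that for all vertices `v`, `v'` of `V_i` the map `A_i → ℤ / m_i` which sends `a` to
`[φ_i a ~ v] - [φ_i a ~ v']` is a polynomial map of degree at most `d + 1` (all its `(d+2)`-fold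
differences vanish). Then `log₂ χ(G) ≤ log₂ t + (60 (d+3)^2 2^d (log₂ r + 1)) ^ (2^d)`, `r` being the real
rank of the adjacency matrix; so for fixed `d` and for `t` at most quasipolynomial in `r` the bound
of the graph form of the log-rank conjecture holds. The bound does not depend on the `m_i`, the
groups and the maps. It follows that it holds for all graphs on `K^n`, `K` any finite field, whose
adjacency function is a polynomial over `K` in `2 n` variables of total degree at most `d + 2`; in
particular for the Cayley graphs on `K^n` given by a subset whose indicator function is a polynomial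
of degree at most `d + 2`.
-/

set_option autoImplicit false

namespace Pool.Agent.Results.MP_3bd889_lc.PolynomialGraphs

/-- `f : A → C` (`A` and `C` abelian groups) is a polynomial map of degree at most `n`: all its
`(n+1)`-fold differences vanish. -/
def PolyMap {A C : Type} [AddCommGroup A] [AddCommGroup C] : ℕ → (A → C) → Prop
  | 0, f => ∀ x y, f x = f y
  | n + 1, f => ∀ a, PolyMap n (fun x => f (x + a) - f x)

/-- the entry of the adjacency matrix as an element of a ring `R` -/
def adj {V : Type} (R : Type) [CommRing R] (G : SimpleGraph V) [DecidableRel G.Adj] (u v : V) : R :=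
  if G.Adj u v then 1 else 0

/-- the bound `(60 (d+3)^2 2^d (log₂ r + 1)) ^ (2^d)` -/
noncomputable def bound (d r : ℕ) : ℝ :=
  (60 * ((d : ℝ) + 3) ^ 2 * 2 ^ d * (Real.logb 2 (r : ℝ) + 1)) ^ 2 ^ d

theorem pol_iff {A C : Type} [AddCommGroup A] [AddCommGroup C] (n : ℕ) :
    ∀ f : A → C, PolyMap n f ↔ Pool.Agent.Y405.PM.Pol n f := by
  induction n with
  | zero => intro f; exact Iff.rfl
  | succ n ih => intro f; exact forall_congr' fun a => ih _

open Finset in
/-- few classes of vertices with the same neighbours in one piece -/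
theorem piece {V : Type} [Fintype V] (G : SimpleGraph V) [DecidableRel G.Adj] (d : ℕ)
    (A : Type) [AddCommGroup A] [Fintype A] (m : ℕ) (hm : 2 ≤ m) (φ : A → V)
    (hG : ∀ v ∈ Set.range φ, ∀ v' ∈ Set.range φ,
      PolyMap (d + 1) (fun a => adj (ZMod m) G (φ a) v - adj (ZMod m) G (φ a) v')) :
    ∃ (N : ℕ) (enc : Set.range φ → (Fin N → Bool)),
      (∀ v v', enc v = enc v' → ∀ a, (G.Adj (φ a) v ↔ G.Adj (φ a) v')) ∧
      (N : ℝ) + 1 ≤ bound d (G.adjMatrix ℝ).rank := by
  classical
  let F : A → Set.range φ → Bool := fun a v => decide (G.Adj (φ a) v)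
  obtain ⟨N, enc, henc, hN⟩ := Pool.Agent.Y405.PM.few d m (by omega) F (by
    intro v v'
    have h := (pol_iff _ _).1 (hG v v.2 v' v'.2)
    have e : (fun x => Pool.Agent.Y405.PM.bit (ZMod m) (F x v) -
        Pool.Agent.Y405.PM.bit (ZMod m) (F x v')) =
        fun a => adj (ZMod m) G (φ a) v - adj (ZMod m) G (φ a) v' := by
      funext a
      simp only [F, Pool.Agent.Y405.PM.bit, adj, decide_eq_true_eq]
    rw [e]
    exact h)
  refine ⟨N, enc, fun v v' h a => ?_, hN.trans ?_⟩
  · have h1 := henc v v' h a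
    simpa [F] using h1
  · refine Pool.Agent.Y405.PM.bound_mono d ?_
    have e : (Matrix.of (fun (a : A) (v : Set.range φ) => if F a v then (1 : ℝ) else 0)) =
        (G.adjMatrix ℝ).submatrix φ (fun v : Set.range φ => (v : V)) := by
      ext a v
      simp [F, SimpleGraph.adjMatrix_apply]
    rw [e]
    exact Matrix.rank_submatrix_le _ _ _

/-- the general bound -/
theorem general {V : Type} [Fintype V] (G : SimpleGraph V) [DecidableRel G.Adj] (d t : ℕ)
    (A : Fin t → Type) [∀ i, AddCommGroup (A i)] [∀ i, Fintype (A i)] (m : Fin t → ℕ)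
    (hm : ∀ i, 2 ≤ m i) (φ : ∀ i, A i → V) (hφ : ∀ v, ∃ i a, φ i a = v)
    (hG : ∀ i, ∀ v ∈ Set.range (φ i), ∀ v' ∈ Set.range (φ i),
      PolyMap (d + 1) (fun a => adj (ZMod (m i)) G (φ i a) v - adj (ZMod (m i)) G (φ i a) v')) :
    Real.logb 2 (G.chromaticNumber.toNat : ℝ) ≤
      Real.logb 2 t + bound d (G.adjMatrix ℝ).rank := by
  classical
  set Bd := bound d (G.adjMatrix ℝ).rank with hBd
  have hBd2 : 2 ≤ Bd := Pool.Agent.Y405.PM.two_le_bound d _
  have hp := fun i => piece G d (A i) (m i) (hm i) (φ i) (hG i)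
  choose N enc henc hN using hp
  choose i₀ a₀ ha₀ using hφ
  set M : ℕ := ⌊Bd⌋₊ with hM
  have hNM : ∀ i, N i ≤ M := fun i => Nat.le_floor (by linarith [hN i])
  let col : V → Fin t × (Fin M → Bool) := fun v =>
    (i₀ v, fun j => if h : (j : ℕ) < N (i₀ v) then enc (i₀ v) ⟨v, ⟨a₀ v, ha₀ v⟩⟩ ⟨j, h⟩ else false)
  have hcol : G.Coloring (Fin t × (Fin M → Bool)) := by
    refine SimpleGraph.Coloring.mk col fun {v w} hvw heq => ?_
    have h1 : i₀ v = i₀ w := congrArg Prod.fst heq
    have h2 := congrArg Prod.snd heq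
    have hw : ∃ a, φ (i₀ v) a = w := by
      rw [h1]
      exact ⟨a₀ w, ha₀ w⟩
    have hwr : ∀ (i : Fin t) (hi : i₀ w = i) (hm' : w ∈ Set.range (φ i)) (j : Fin M),
        (if h : (j : ℕ) < N (i₀ w) then enc (i₀ w) ⟨w, ⟨a₀ w, ha₀ w⟩⟩ ⟨j, h⟩ else false) =
        if h : (j : ℕ) < N i then enc i ⟨w, hm'⟩ ⟨j, h⟩ else false := by
      intro i hi hm' j
      subst hi
      rfl
    have h3 : enc (i₀ v) ⟨v, ⟨a₀ v, ha₀ v⟩⟩ = enc (i₀ v) ⟨w, hw⟩ := by
      funext j
      have hj : (j : ℕ) < M := j.2.trans_le (hNM _)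
      have h4 := congrFun h2 ⟨j, hj⟩
      simp only [col] at h4
      rw [hwr (i₀ v) h1.symm hw ⟨j, hj⟩] at h4
      simpa using h4
    have h5 := (henc (i₀ v) _ _ h3 (a₀ v))
    rw [ha₀ v] at h5
    exact G.loopless.irrefl v (h5.2 hvw)
  have hcard : Fintype.card (Fin t × (Fin M → Bool)) = t * 2 ^ M := by
    rw [Fintype.card_prod, Fintype.card_fin, Fintype.card_fun, Fintype.card_bool, Fintype.card_fin]
  have hc : G.Colorable (t * 2 ^ M) := by
    rw [← hcard]
    exact hcol.colorable
  have h1 : G.chromaticNumber ≤ (t * 2 ^ M : ℕ) := hc.chromaticNumber_le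
  have h2 : G.chromaticNumber.toNat ≤ t * 2 ^ M := by
    have := ENat.toNat_le_toNat h1 (ENat.natCast_ne_top _)
    rwa [ENat.toNat_natCast] at this
  have hMB : (M : ℝ) ≤ Bd := Nat.floor_le (by linarith)
  rcases Nat.eq_zero_or_pos G.chromaticNumber.toNat with h0 | h0
  · rw [h0, Nat.cast_zero, Real.logb_zero]
    have := Pool.Agent.Y405.PM.logb_nonneg t
    linarith
  · have ht : 0 < t := by
      rcases Nat.eq_zero_or_pos t with h | h
      · rw [h, zero_mul] at h2
        omega
      · exact h
    have htr : (0 : ℝ) < t := by exact_mod_cast ht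
    calc Real.logb 2 (G.chromaticNumber.toNat : ℝ) ≤ Real.logb 2 ((t * 2 ^ M : ℕ) : ℝ) :=
          Real.logb_le_logb_of_le (by norm_num) (by exact_mod_cast h0) (by exact_mod_cast h2)
      _ = Real.logb 2 t + M := by
          push_cast
          rw [Real.logb_mul htr.ne' (by positivity), Real.logb_pow, Real.logb_self_eq_one (by norm_num),
            mul_one]
      _ ≤ Real.logb 2 t + Bd := by linarith

/-- joining two vectors -/
def joinHom (K : Type) [Field K] (n n' : ℕ) :
    ((Fin n → K) × (Fin n' → K)) →+ (Fin n ⊕ Fin n' → K) where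
  toFun z := Sum.elim z.1 z.2
  map_zero' := by funext i; rcases i with i | i <;> rfl
  map_add' := by intro a b; funext i; rcases i with i | i <;> simp

/-- **Chromatic number and rank for graphs given by polynomials of constant degree.** Let `d ≥ 0`,
`r` the real rank of the adjacency matrix and `bound d r = (60 (d+3)^2 2^d (log₂ r + 1)) ^ (2^d)`.
(1) Let the vertices of `G` be covered by the images of `t` maps `φ i : A i → V`, `A i` any finite
abelian groups, and let `m i ≥ 2` be such that for all `v`, `v'` in the image of `φ i` the map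
`A i → ℤ / m i`, `a ↦ [φ i a ~ v] - [φ i a ~ v']`, is a polynomial map of degree at most `d + 1`. Then
`log₂ χ(G) ≤ log₂ t + bound d r`.
(2) Let `K` be a finite field and `G` a graph on `K ^ n` such that `[x ~ y]` is a polynomial over `K` in
the `2 n` coordinates of `x` and `y` of total degree at most `d + 2`. Then `log₂ χ(G) ≤ bound d r`.
(Twins do not matter for this bound.) -/
theorem result (d : ℕ) :
    (∀ (V : Type) [Fintype V] (G : SimpleGraph V) [DecidableRel G.Adj] (t : ℕ)
      (A : Fin t → Type) [∀ i, AddCommGroup (A i)] [∀ i, Fintype (A i)] (m : Fin t → ℕ)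
      (φ : ∀ i, A i → V), (∀ i, 2 ≤ m i) → (∀ v, ∃ i a, φ i a = v) →
      (∀ i, ∀ v ∈ Set.range (φ i), ∀ v' ∈ Set.range (φ i), PolyMap (d + 1)
        (fun a => adj (ZMod (m i)) G (φ i a) v - adj (ZMod (m i)) G (φ i a) v')) →
      Real.logb 2 (G.chromaticNumber.toNat : ℝ) ≤
        Real.logb 2 t + bound d (G.adjMatrix ℝ).rank) ∧
    (∀ (K : Type) [Field K] [Fintype K] (n : ℕ) (G : SimpleGraph (Fin n → K)) [DecidableRel G.Adj]
      (P : MvPolynomial (Fin n ⊕ Fin n) K), P.totalDegree ≤ d + 2 →
      (∀ x y, adj K G x y = MvPolynomial.eval (Sum.elim x y) P) →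
      Real.logb 2 (G.chromaticNumber.toNat : ℝ) ≤ bound d (G.adjMatrix ℝ).rank) := by
  classical
  refine ⟨fun V _ G _ t A _ _ m φ hm hφ hG => general G d t A m hm φ hφ hG, ?_⟩
  · intro K _ _ n G _ P hP hG
    obtain ⟨p, hp, ψ, h1⟩ := Pool.Agent.Y405.PM.exists_hom K
    have hmain := general G d 1 (fun _ => Fin n → K) (fun _ => p) (fun _ => hp.out.two_le)
      (fun _ => id) (fun v => ⟨0, v, rfl⟩) (by
        intro _ v _ v' _
        rw [pol_iff]
        have h1' := ((Pool.Agent.Y405.PM.pol_eval (d + 2) P hP).pre (joinHom K n n)).post ψ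
        have h2 := Pool.Agent.Y405.PM.Pol.slice (d := d + 1) h1' v v'
        have e0 : ∀ x y : Fin n → K, adj (ZMod p) G x y = ψ (adj K G x y) := by
          intro x y
          unfold adj
          split_ifs
          · exact h1.symm
          · exact (map_zero ψ).symm
        have e : (fun a : Fin n → K => adj (ZMod p) G (id a) v - adj (ZMod p) G (id a) v') =
            fun x => ψ (MvPolynomial.eval (joinHom K n n (x, v)) P) -
              ψ (MvPolynomial.eval (joinHom K n n (x, v')) P) := by
          funext x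
          rw [e0, e0, hG, hG]
          rfl
        rw [e]
        exact h2)
    rw [Nat.cast_one, Real.logb_one, zero_add] at hmain
    exact hmain

end Pool.Agent.Results.MP_3bd889_lc.PolynomialGraphs
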