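import Pool.Agent.Y424.PP.Main

/-!
# The graph form of the log-rank conjecture from pure pairs in the induced subgraphs

Let `G` be a twin-free graph of rank `r ≥ 1`.

* Suppose that every set `A` of vertices which is not independent contains sets `X`, `Y` with
  `|A| ≤ c |X|` and `|A| ≤ c |Y|` such that all but a fraction `1 / (4 (r + 1))` of the pairs in
  `X × Y` are adjacent, or all but such a fraction are non-adjacent. Then
  `log₂ χ(G) ≤ (log₂ r + 1) (log₂ c + 2)`. So the conjecture holds for every hereditary class with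
  the strong Erdős–Hajnal property, even if the constant `c` is quasipolynomial in the rank, and
  even if the pairs are only nearly pure. (The method of Nisan and Wigderson needs large constant
  rectangles in the submatrices `A × B` for all pairs of sets `A`, `B`; here only the principal
  submatrices `A × A` are used.)
* In particular this applies to graphs whose adjacency matrix is given by decision lists of at most
  `m` rectangles, nested to depth `k`, with innermost leaves of twin-width at most `d`: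
  `log₂ χ(G) ≤ (log₂ r + 1) (k log₂ (m + 1) + log₂ (d + 1) + 3)`; the case `k = 0` are graphs whose
  adjacency matrix has twin-width at most `d`, with `d` quasipolynomial in the rank.

Proof. Let `s(A)` be the rank of `A × A` modulo functions of one coordinate. If `X × Y` is a constant
rectangle in `A × A`, then `s(X) + s(Y) ≤ s(A)`; so one of the two sets has at most half of the rank,
and after `log₂ r + 1` steps the rank is zero, which means that the set is independent. Nearly pure
pairs are purified with a basis of the rows which have few exceptions. The colouring is greedy, with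
the bound `2 ^ r` for the number of vertices.
-/

set_option autoImplicit false

namespace Pool.Agent.Results.MP_3bd889_lc.PurePairs

open Finset
open Pool.Agent.Y424.LR (TwinWidthLE Nested mat)

/-- the adjacency matrix with entries `true` and `false` -/
def adj {n : ℕ} (G : SimpleGraph (Fin n)) [DecidableRel G.Adj] (u v : Fin n) : Bool :=
  decide (G.Adj u v)

theorem mat_adj {n : ℕ} (G : SimpleGraph (Fin n)) [DecidableRel G.Adj] :
    mat (adj G) = G.adjMatrix ℝ := by
  ext u v
  rw [mat, Matrix.of_apply, SimpleGraph.adjMatrix_apply, Pool.Agent.Y424.LR.bv, adj]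
  by_cases h : G.Adj u v
  · simp [h]
  · simp [h]

theorem bound {n : ℕ} (G : SimpleGraph (Fin n)) [DecidableRel G.Adj]
    (htw : ∀ u v : Fin n, u ≠ v → ¬ G.Adj u v → G.neighborSet u ≠ G.neighborSet v)
    (hr : 1 ≤ (G.adjMatrix ℝ).rank) {c : ℕ} (hc : 1 ≤ c)
    (hF : Pool.Agent.Y424.PP.HasPure (adj G) c) :
    Real.logb 2 (G.chromaticNumber.toNat : ℝ) ≤
      (Real.logb 2 ((G.adjMatrix ℝ).rank : ℝ) + 1) * (Real.logb 2 (c : ℝ) + 1) := by
  classical
  have hadj : ∀ u v, adj G u v = true ↔ G.Adj u v := fun u v => by simp [adj]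
  obtain ⟨f, hf1, hf2⟩ := Pool.Agent.Y424.PP.main (F := adj G)
    (fun x y => by simp [adj, G.adj_comm x y]) (fun x => by simp [adj]) (by
      intro x y hxy
      by_contra hne
      have h1 : ∀ w, G.Adj x w ↔ G.Adj y w := by
        intro w
        rw [← hadj, ← hadj, congrFun hxy w]
      have hnadj : ¬ G.Adj x y := by
        intro h
        exact G.loopless.irrefl y ((h1 y).1 h)
      apply htw x y hne hnadj
      ext w
      rw [SimpleGraph.mem_neighborSet, SimpleGraph.mem_neighborSet]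
      exact h1 w) hc hF
  rw [mat_adj] at hf1
  obtain ⟨r, hrr⟩ : ∃ r, r = (G.adjMatrix ℝ).rank := ⟨_, rfl⟩
  rw [← hrr] at hf1 hr ⊢
  obtain ⟨N, hN⟩ : ∃ N, N = c ^ (Nat.log 2 r + 1) * (r + 1) := ⟨_, rfl⟩
  rw [← hN] at hf1
  have hcol : G.Colorable N := by
    refine ⟨SimpleGraph.Coloring.mk (fun x => (⟨f x, hf1 x⟩ : Fin N)) ?_⟩
    intro x y hxy heq
    have h1 : f x = f y := by
      have := congrArg Fin.val heq
      exact this
    have h2 := hf2 x y h1
    rw [(hadj x y).2 hxy] at h2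
    exact absurd h2 (by decide)
  have h2 : G.chromaticNumber.toNat ≤ N := by
    have := ENat.toNat_le_toNat hcol.chromaticNumber_le (ENat.natCast_ne_top N)
    simpa using this
  have hr0 : (1 : ℝ) ≤ (r : ℝ) := by exact_mod_cast hr
  have hL : 0 ≤ Real.logb 2 (r : ℝ) := Real.logb_nonneg (by norm_num) hr0
  have hc0 : (1 : ℝ) ≤ (c : ℝ) := by exact_mod_cast hc
  have hlc : 0 ≤ Real.logb 2 (c : ℝ) := Real.logb_nonneg (by norm_num) hc0
  by_cases h0 : G.chromaticNumber.toNat = 0
  · rw [h0, Nat.cast_zero, Real.logb_zero]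
    exact mul_nonneg (by linarith) (by linarith)
  · have h3 : (0 : ℝ) < (G.chromaticNumber.toNat : ℝ) := by exact_mod_cast Nat.pos_of_ne_zero h0
    have h4 : Real.logb 2 (G.chromaticNumber.toNat : ℝ) ≤ Real.logb 2 (N : ℝ) :=
      Real.logb_le_logb_of_le (by norm_num) h3 (by exact_mod_cast h2)
    have h5 : Real.logb 2 (N : ℝ) = ((Nat.log 2 r : ℝ) + 1) * Real.logb 2 (c : ℝ) +
        Real.logb 2 ((r : ℝ) + 1) := by
      rw [hN, Nat.cast_mul, Nat.cast_pow, Real.logb_mul (by positivity) (by positivity),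
        Real.logb_pow]
      push_cast
      ring
    have h6 : (Nat.log 2 r : ℝ) ≤ Real.logb 2 (r : ℝ) := by
      have := Real.natLog_le_logb r 2
      exact_mod_cast this
    have h7 : Real.logb 2 ((r : ℝ) + 1) ≤ Real.logb 2 (r : ℝ) + 1 := by
      have e : Real.logb 2 (r : ℝ) + 1 = Real.logb 2 (2 * (r : ℝ)) := by
        rw [Real.logb_mul (by norm_num) (by positivity), Real.logb_self_eq_one (by norm_num)]
        ring
      rw [e]
      exact Real.logb_le_logb_of_le (by norm_num) (by positivity) (by linarith)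
    nlinarith

/-- **The graph form of the log-rank conjecture from nearly pure pairs.** Let `G` be a twin-free
graph of rank `r ≥ 1`.
1. If every set `A` of vertices which is not independent contains sets `X`, `Y` of size at least
   `|A| / c` such that at most `|X| |Y| / (4 (r + 1))` pairs in `X × Y` are adjacent, or at most
   so many are non-adjacent, then `log₂ χ(G) ≤ (log₂ r + 1) (log₂ c + 2)`.
2. If the adjacency matrix is given by decision lists of at most `m` rectangles, nested to depth `k`,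
   whose innermost leaves have twin-width at most `d`, then
   `log₂ χ(G) ≤ (log₂ r + 1) (k log₂ (m + 1) + log₂ (d + 1) + 3)`.
3. In particular, if `1 ≤ a`, `k ≤ (log₂ r + 1) ^ a`, `log₂ (m + 1) ≤ (log₂ r + 1) ^ a` and
   `log₂ (d + 1) ≤ (log₂ r + 1) ^ a` then `log₂ χ(G) ≤ 5 (log₂ r + 1) ^ (2 a + 1)`. -/
theorem result :
    (∀ (n : ℕ) (G : SimpleGraph (Fin n)) [DecidableRel G.Adj] (c : ℕ),
      (∀ u v : Fin n, u ≠ v → ¬ G.Adj u v → G.neighborSet u ≠ G.neighborSet v) →
      1 ≤ (G.adjMatrix ℝ).rank → 1 ≤ c →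
      (∀ A : Finset (Fin n), (∃ x ∈ A, ∃ y ∈ A, G.Adj x y) →
        ∃ X ⊆ A, ∃ Y ⊆ A, A.card ≤ c * X.card ∧ A.card ≤ c * Y.card ∧
          (4 * ((G.adjMatrix ℝ).rank + 1) *
            ((X ×ˢ Y).filter (fun p => G.Adj p.1 p.2)).card ≤ X.card * Y.card ∨
          4 * ((G.adjMatrix ℝ).rank + 1) *
            ((X ×ˢ Y).filter (fun p => ¬ G.Adj p.1 p.2)).card ≤ X.card * Y.card)) →
      Real.logb 2 (G.chromaticNumber.toNat : ℝ) ≤
        (Real.logb 2 ((G.adjMatrix ℝ).rank : ℝ) + 1) * (Real.logb 2 (c : ℝ) + 2)) ∧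
    (∀ (n : ℕ) (G : SimpleGraph (Fin n)) [DecidableRel G.Adj] (m d k : ℕ),
      (∀ u v : Fin n, u ≠ v → ¬ G.Adj u v → G.neighborSet u ≠ G.neighborSet v) →
      1 ≤ (G.adjMatrix ℝ).rank →
      Nested m (fun q => TwinWidthLE q d) k (adj G) →
      Real.logb 2 (G.chromaticNumber.toNat : ℝ) ≤
        (Real.logb 2 ((G.adjMatrix ℝ).rank : ℝ) + 1) *
          (k * Real.logb 2 ((m : ℝ) + 1) + Real.logb 2 ((d : ℝ) + 1) + 3)) ∧
    (∀ (n : ℕ) (G : SimpleGraph (Fin n)) [DecidableRel G.Adj] (a m d k : ℕ),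
      (∀ u v : Fin n, u ≠ v → ¬ G.Adj u v → G.neighborSet u ≠ G.neighborSet v) →
      1 ≤ (G.adjMatrix ℝ).rank → 1 ≤ a →
      Nested m (fun q => TwinWidthLE q d) k (adj G) →
      (k : ℝ) ≤ (Real.logb 2 ((G.adjMatrix ℝ).rank : ℝ) + 1) ^ a →
      Real.logb 2 ((m : ℝ) + 1) ≤ (Real.logb 2 ((G.adjMatrix ℝ).rank : ℝ) + 1) ^ a →
      Real.logb 2 ((d : ℝ) + 1) ≤ (Real.logb 2 ((G.adjMatrix ℝ).rank : ℝ) + 1) ^ a →
      Real.logb 2 (G.chromaticNumber.toNat : ℝ) ≤
        5 * (Real.logb 2 ((G.adjMatrix ℝ).rank : ℝ) + 1) ^ (2 * a + 1)) := by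
  classical
  have part2 : ∀ (n : ℕ) (G : SimpleGraph (Fin n)) [DecidableRel G.Adj] (m d k : ℕ),
      (∀ u v : Fin n, u ≠ v → ¬ G.Adj u v → G.neighborSet u ≠ G.neighborSet v) →
      1 ≤ (G.adjMatrix ℝ).rank →
      Nested m (fun q => TwinWidthLE q d) k (adj G) →
      Real.logb 2 (G.chromaticNumber.toNat : ℝ) ≤
        (Real.logb 2 ((G.adjMatrix ℝ).rank : ℝ) + 1) *
          (k * Real.logb 2 ((m : ℝ) + 1) + Real.logb 2 ((d : ℝ) + 1) + 3) := by
    intro n G _ m d k htw hr hF
    have hc : 1 ≤ (m + 1) ^ k * (4 * (d + 1)) :=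
      Nat.mul_pos (Nat.pow_pos (Nat.succ_pos m)) (by omega)
    have h1 := bound G htw hr hc (Pool.Agent.Y424.PP.rich_pure
      (Pool.Agent.Y424.LR.rich_nested (fun q hq => Pool.Agent.Y424.LR.rich_tww hq) hF))
    have e : Real.logb 2 (((m + 1) ^ k * (4 * (d + 1)) : ℕ) : ℝ) =
        k * Real.logb 2 ((m : ℝ) + 1) + (2 + Real.logb 2 ((d : ℝ) + 1)) := by
      have e1 : (((m + 1) ^ k * (4 * (d + 1)) : ℕ) : ℝ) =
          ((m : ℝ) + 1) ^ k * (2 ^ (2 : ℕ) * ((d : ℝ) + 1)) := by
        push_cast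
        ring
      rw [e1, Real.logb_mul (by positivity) (by positivity),
        Real.logb_mul (by norm_num) (by positivity), Real.logb_pow, Real.logb_pow,
        Real.logb_self_eq_one (by norm_num)]
      norm_num
    rw [e] at h1
    refine h1.trans (le_of_eq ?_)
    ring
  refine ⟨?_, part2, ?_⟩
  · intro n G _ c htw hr hc h
    have h1 : Pool.Agent.Y424.PP.HasPure (adj G) (2 * c) := by
      apply Pool.Agent.Y424.PP.pure_of_almost
      intro A hA
      obtain ⟨x, hx, y, hy, hxy⟩ := hA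
      obtain ⟨X, hX, Y, hY, h2, h3, h4⟩ := h A ⟨x, hx, y, hy, by simpa [adj] using hxy⟩
      rw [mat_adj]
      rcases h4 with h4 | h4
      · refine ⟨X, hX, Y, hY, h2, h3, false, ?_⟩
        have e : (X ×ˢ Y).filter (fun p => adj G p.1 p.2 ≠ false) =
            (X ×ˢ Y).filter (fun p => G.Adj p.1 p.2) :=
          filter_congr fun p _ => by simp [adj]
        rw [e]
        exact h4
      · refine ⟨X, hX, Y, hY, h2, h3, true, ?_⟩
        have e : (X ×ˢ Y).filter (fun p => adj G p.1 p.2 ≠ true) =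
            (X ×ˢ Y).filter (fun p => ¬ G.Adj p.1 p.2) :=
          filter_congr fun p _ => by simp [adj]
        rw [e]
        exact h4
    have h2 := bound G htw hr (by omega : 1 ≤ 2 * c) h1
    have e : Real.logb 2 ((2 * c : ℕ) : ℝ) = 1 + Real.logb 2 (c : ℝ) := by
      have hc0 : (c : ℝ) ≠ 0 := by
        have : 0 < c := hc
        exact_mod_cast this.ne'
      rw [Nat.cast_mul, Real.logb_mul (by norm_num) hc0]
      norm_num
    rw [e] at h2
    refine h2.trans (le_of_eq ?_)
    ring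
  · intro n G _ a m d k htw hr ha hF hk hm hd
    refine (part2 n G m d k htw hr hF).trans ?_
    have hr0 : (1 : ℝ) ≤ ((G.adjMatrix ℝ).rank : ℝ) := by exact_mod_cast hr
    have hL : 0 ≤ Real.logb 2 ((G.adjMatrix ℝ).rank : ℝ) := Real.logb_nonneg (by norm_num) hr0
    obtain ⟨M, hM⟩ : ∃ M, M = Real.logb 2 ((G.adjMatrix ℝ).rank : ℝ) + 1 := ⟨_, rfl⟩
    rw [← hM] at hk hm hd ⊢
    have hM1 : 1 ≤ M := by rw [hM]; linarith
    obtain ⟨P, hP⟩ : ∃ P, P = M ^ a := ⟨_, rfl⟩
    rw [← hP] at hk hm hd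
    have hP1 : 1 ≤ P := by
      rw [hP]
      exact one_le_pow₀ hM1
    have hk0 : (0 : ℝ) ≤ k := Nat.cast_nonneg _
    have hlog0 : 0 ≤ Real.logb 2 ((m : ℝ) + 1) :=
      Real.logb_nonneg (by norm_num) (by linarith [Nat.cast_nonneg (α := ℝ) m])
    have e1 : (k : ℝ) * Real.logb 2 ((m : ℝ) + 1) ≤ P * P :=
      mul_le_mul hk hm hlog0 (by linarith)
    have e2 : M ^ (2 * a + 1) = P * P * M := by
      rw [hP]
      ring
    rw [e2]
    have e4 : (k : ℝ) * Real.logb 2 ((m : ℝ) + 1) + Real.logb 2 ((d : ℝ) + 1) + 3 ≤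
        5 * (P * P) := by
      nlinarith
    calc M * (k * Real.logb 2 ((m : ℝ) + 1) + Real.logb 2 ((d : ℝ) + 1) + 3)
        ≤ M * (5 * (P * P)) := mul_le_mul_of_nonneg_left e4 (by linarith)
      _ = 5 * (P * P * M) := by ring

end Pool.Agent.Results.MP_3bd889_lc.PurePairs
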