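import Pool.Agent.Y395.RK.Pert

set_option autoImplicit false

/-!
# Chromatic number and rank of random perturbations of arbitrary graphs

Let `H₀` and `D` be arbitrary graphs on the same finite set `V`, and let `F` be a uniformly random
spanning subgraph of `D` (the pairs which are edges of `D` are flipped in `H₀` independently with
probability `1/2`, giving `H₀ ∆ F`).  The rank is the rank of the adjacency matrix over the reals.

* For every `ε > 0` there is `C` such that for all `V`, `H₀`, `D`, for all but a proportion `ε` of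
  the spanning subgraphs `F` of `D`,
  `log χ(H₀ ∆ F) ≤ max (log χ(H₀)) (log rank (H₀ ∆ F)) + C` and
  `log rank H₀ ≤ log rank (H₀ ∆ F) + C`.  In particular (`H₀` empty) the chromatic number of all
  but a proportion `ε` of the spanning subgraphs of an arbitrary graph is at most a constant times
  the rank.
* So the conjectured bound passes from an arbitrary graph to nearly all of its perturbations along
  an arbitrary graph, with the same exponent.
* For every graph `G`, all but a proportion `2 ^ (-(χ(G) - 1) / 12)` of the spanning subgraphs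
  `H` of `G` have `χ(H) ≤ χ(G) ≤ 8 rank H + 1`.
* If `D` has a matching `M` of at least `|V| ^ δ` edges, then
  `log χ(H₀ ∆ F) ≤ (1/δ) (log rank (H₀ ∆ F) + log 4)` for all but a proportion `2 ^ (-|M| / 6)`
  of the spanning subgraphs `F` of `D`, for every graph `H₀`.
-/

namespace Pool.Agent.Results.MP_3bd889_lc.RandomSubgraphs

open Classical in
/-- The rank of the adjacency matrix of `G` over the reals. -/
noncomputable def rank {V : Type} [Fintype V] (G : SimpleGraph V) : ℕ := (G.adjMatrix ℝ).rank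

/-- The chromatic number of `G` as a natural number. -/
noncomputable def chi {V : Type} (G : SimpleGraph V) : ℕ := G.chromaticNumber.toNat

/-- All but a proportion `ε` of the spanning subgraphs `F` of `D` have the property `P`. -/
def AllBut {V : Type} (ε : ℝ) (D : SimpleGraph V) (P : SimpleGraph V → Prop) : Prop :=
  (({F : SimpleGraph V | F ≤ D ∧ ¬ P F}.ncard : ℕ) : ℝ) ≤
    ε * (({F : SimpleGraph V | F ≤ D}.ncard : ℕ) : ℝ)

theorem result :
    -- all perturbations: chromatic number and rank
    (∀ ε : ℝ, 0 < ε → ∃ C : ℝ, ∀ (V : Type) [Fintype V] (H₀ D : SimpleGraph V),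
      AllBut ε D fun F =>
        Real.log (chi (symmDiff H₀ F) : ℝ) ≤
          max (Real.log (chi H₀ : ℝ)) (Real.log (rank (symmDiff H₀ F) : ℝ)) + C ∧
        Real.log (rank H₀ : ℝ) ≤ Real.log (rank (symmDiff H₀ F) : ℝ) + C) ∧
    -- the conjectured bound passes to the perturbations
    (∀ ε A c : ℝ, 0 < ε → 0 ≤ A → 1 ≤ c → ∃ A' : ℝ,
      ∀ (V : Type) [Fintype V] (H₀ D : SimpleGraph V),
        Real.log (chi H₀ : ℝ) ≤ A * (1 + Real.log (rank H₀ : ℝ)) ^ c →
        AllBut ε D fun F => Real.log (chi (symmDiff H₀ F) : ℝ) ≤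
          A' * (1 + Real.log (rank (symmDiff H₀ F) : ℝ)) ^ c) ∧
    -- spanning subgraphs of an arbitrary graph
    (∀ (V : Type) [Fintype V] (G : SimpleGraph V),
      AllBut ((2 : ℝ) ^ (-(((chi G : ℝ) - 1) / 12))) G fun H =>
        chi H ≤ chi G ∧ chi G ≤ 8 * rank H + 1) ∧
    -- smoothed analysis: perturbations along a graph with a matching of polynomial size
    (∀ (δ : ℝ), 0 < δ → ∀ (V : Type) [Fintype V] (H₀ D : SimpleGraph V) (M : Finset (Sym2 V)),
      (∀ e ∈ M, e ∈ D.edgeSet) → (∀ e ∈ M, ∀ e' ∈ M, ∀ v : V, v ∈ e → v ∈ e' → e = e') →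
      (Fintype.card V : ℝ) ^ δ ≤ M.card →
      AllBut ((2 : ℝ) ^ (-((M.card : ℝ) / 6))) D fun F =>
        Real.log (chi (symmDiff H₀ F) : ℝ) ≤
          1 / δ * (Real.log (rank (symmDiff H₀ F) : ℝ) + Real.log 4)) := by
  refine ⟨?_, ?_, ?_, ?_⟩
  · intro ε hε
    obtain ⟨C, _, h⟩ := Pool.Agent.Y395.RK.pert_bound ε hε
    exact ⟨C, fun V _ H₀ D => h V H₀ D⟩
  · intro ε A c hε hA hc
    obtain ⟨A', h⟩ := Pool.Agent.Y395.RK.transfer ε A c hε hA hc
    exact ⟨A', fun V _ H₀ D hH => h V H₀ D hH⟩
  · intro V _ G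
    refine le_trans ?_ (Pool.Agent.Y395.RK.host_bound G)
    apply Nat.cast_le.2
    apply Set.ncard_le_ncard _ (Set.toFinite _)
    rintro H ⟨hH, h1⟩
    refine ⟨hH, ?_⟩
    by_contra h2
    push Not at h2
    exact h1 ⟨Pool.Agent.Y395.RK.chi_mono hH, h2⟩
  · intro δ hδ V _ H₀ D M hM1 hM2 hM3
    exact Pool.Agent.Y395.RK.smooth_bound δ hδ H₀ D M ⟨hM1, hM2⟩ hM3

end Pool.Agent.Results.MP_3bd889_lc.RandomSubgraphs
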